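import Mathlib

/-!
# Integral combinations of vectors of square four: finite case distinctions
-/

set_option autoImplicit false

namespace Pool.Agent.K9h36.CS

theorem finA (p q : ℤ) (hp1 : -4 ≤ p) (hp2 : p ≤ 4) (hq1 : -4 ≤ q) (hq2 : q ≤ 4)
    (hN : ∀ a b c : ℤ, 0 ≤ 4 * (a * a + b * b + c * c) + 2 * (a * b + a * c * p + b * c * q) ∧
      4 * (a * a + b * b + c * c) + 2 * (a * b + a * c * p + b * c * q) ≠ 2 ∧
      4 * (a * a + b * b + c * c) + 2 * (a * b + a * c * p + b * c * q) ≠ 14) :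
    (p, q) ∈ ([(1, 0), (-1, 0), (0, 1), (0, -1)] : List (ℤ × ℤ)) ∨
    (p, q) ∈ ([(-4, -1), (-2, -2), (-2, 1), (-1, -4), (-1, -1), (-1, 2), (1, -2), (1, 1), (1, 4), (2, -1), (2, 2), (4, 1)] : List (ℤ × ℤ)) := by
  interval_cases p <;> interval_cases q <;>
    first | decide |
      exact absurd (hN (0) (1) (-1)) (by decide) |
      exact absurd (hN (1) (0) (-1)) (by decide) |
      exact absurd (hN (1) (-1) (-1)) (by decide) |
      exact absurd (hN (1) (-1) (1)) (by decide) |
      exact absurd (hN (1) (1) (-2)) (by decide) |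
      exact absurd (hN (1) (1) (2)) (by decide) |
      exact absurd (hN (1) (1) (-1)) (by decide)

set_option maxHeartbeats 4000000 in
theorem finB (p q p' q' m : ℤ) (h : (p, q) ∈ ([(-4, -1), (-2, -2), (-2, 1), (-1, -4), (-1, -1), (-1, 2), (1, -2), (1, 1), (1, 4), (2, -1), (2, 2), (4, 1)] : List (ℤ × ℤ)))
    (h' : (p', q') ∈ ([(-4, -1), (-2, -2), (-2, 1), (-1, -4), (-1, -1), (-1, 2), (1, -2), (1, 1), (1, 4), (2, -1), (2, 2), (4, 1)] : List (ℤ × ℤ)))
    (hm1 : -4 ≤ m) (hm2 : m ≤ 4) (hm : (m - p * p') % 3 ≠ 0)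
    (hN : ∀ a b c d : ℤ, 0 ≤ 4 * (a * a + b * b + c * c + d * d) +
        2 * (a * b + a * c * p + b * c * q + a * d * p' + b * d * q' + c * d * m) ∧
      4 * (a * a + b * b + c * c + d * d) +
        2 * (a * b + a * c * p + b * c * q + a * d * p' + b * d * q' + c * d * m) ≠ 2 ∧
      4 * (a * a + b * b + c * c + d * d) +
        2 * (a * b + a * c * p + b * c * q + a * d * p' + b * d * q' + c * d * m) ≠ 14) :
    False := by
  simp only [List.mem_cons, Prod.mk.injEq, List.not_mem_nil, or_false] at h h'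
  rcases h with ⟨rfl, rfl⟩ | ⟨rfl, rfl⟩ | ⟨rfl, rfl⟩ | ⟨rfl, rfl⟩ | ⟨rfl, rfl⟩ | ⟨rfl, rfl⟩ | ⟨rfl, rfl⟩ | ⟨rfl, rfl⟩ | ⟨rfl, rfl⟩ | ⟨rfl, rfl⟩ | ⟨rfl, rfl⟩ | ⟨rfl, rfl⟩ <;>
  rcases h' with ⟨rfl, rfl⟩ | ⟨rfl, rfl⟩ | ⟨rfl, rfl⟩ | ⟨rfl, rfl⟩ | ⟨rfl, rfl⟩ | ⟨rfl, rfl⟩ | ⟨rfl, rfl⟩ | ⟨rfl, rfl⟩ | ⟨rfl, rfl⟩ | ⟨rfl, rfl⟩ | ⟨rfl, rfl⟩ | ⟨rfl, rfl⟩ <;>
  interval_cases m <;>
    first | exact hm (by decide) |
      exact absurd (hN (0) (0) (1) (-1)) (by decide) |
      exact absurd (hN (0) (1) (-1) (-1)) (by decide) |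
      exact absurd (hN (1) (0) (-1) (1)) (by decide) |
      exact absurd (hN (0) (1) (1) (1)) (by decide) |
      exact absurd (hN (1) (0) (1) (-1)) (by decide) |
      exact absurd (hN (1) (1) (-1) (-1)) (by decide) |
      exact absurd (hN (1) (-1) (1) (1)) (by decide) |
      exact absurd (hN (1) (0) (-1) (2)) (by decide) |
      exact absurd (hN (0) (1) (-1) (-2)) (by decide) |
      exact absurd (hN (0) (1) (1) (2)) (by decide) |
      exact absurd (hN (1) (0) (1) (-2)) (by decide) |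
      exact absurd (hN (1) (1) (1) (-1)) (by decide) |
      exact absurd (hN (0) (1) (-2) (-1)) (by decide) |
      exact absurd (hN (0) (1) (2) (1)) (by decide) |
      exact absurd (hN (1) (0) (-2) (1)) (by decide) |
      exact absurd (hN (1) (0) (2) (-1)) (by decide) |
      exact absurd (hN (1) (-1) (-1) (-1)) (by decide) |
      exact absurd (hN (0) (1) (-1) (1)) (by decide) |
      exact absurd (hN (0) (1) (1) (-1)) (by decide) |
      exact absurd (hN (1) (0) (-1) (-1)) (by decide) |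
      exact absurd (hN (1) (0) (1) (1)) (by decide)

theorem finC (p q r : ℤ) (hp1 : -2 ≤ p) (hp2 : p ≤ 2) (hq1 : -2 ≤ q) (hq2 : q ≤ 2)
    (hr1 : -2 ≤ r) (hr2 : r ≤ 2)
    (hN : ∀ a b c d : ℤ, d ≠ 0 → 0 < 4 * (a * a + b * b + c * c + d * d) +
        2 * (a * b + a * c + a * d * p + b * d * q + c * d * r) ∧
      4 * (a * a + b * b + c * c + d * d) +
        2 * (a * b + a * c + a * d * p + b * d * q + c * d * r) ≠ 2 ∧
      4 * (a * a + b * b + c * c + d * d) +
        2 * (a * b + a * c + a * d * p + b * d * q + c * d * r) ≠ 14) :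
    p = 0 ∧ (q = 1 ∨ q = -1) ∧ (r = 1 ∨ r = -1) := by
  interval_cases p <;> interval_cases q <;> interval_cases r <;>
    first | decide |
      exact absurd (hN (1) (0) (1) (-1) (by decide)) (by decide) |
      exact absurd (hN (1) (1) (0) (-1) (by decide)) (by decide) |
      exact absurd (hN (1) (-1) (-1) (-1) (by decide)) (by decide) |
      exact absurd (hN (1) (-1) (-1) (1) (by decide)) (by decide) |
      exact absurd (hN (0) (1) (-1) (-1) (by decide)) (by decide) |
      exact absurd (hN (0) (1) (-1) (1) (by decide)) (by decide) |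
      exact absurd (hN (1) (-1) (0) (-1) (by decide)) (by decide) |
      exact absurd (hN (1) (-1) (0) (1) (by decide)) (by decide) |
      exact absurd (hN (1) (0) (1) (-2) (by decide)) (by decide) |
      exact absurd (hN (1) (0) (1) (2) (by decide)) (by decide) |
      exact absurd (hN (0) (1) (1) (-1) (by decide)) (by decide) |
      exact absurd (hN (0) (1) (1) (1) (by decide)) (by decide) |
      exact absurd (hN (1) (-2) (-1) (-2) (by decide)) (by decide) |
      exact absurd (hN (1) (-2) (-1) (2) (by decide)) (by decide) |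
      exact absurd (hN (1) (0) (-1) (-1) (by decide)) (by decide) |
      exact absurd (hN (1) (0) (-1) (1) (by decide)) (by decide) |
      exact absurd (hN (1) (-1) (1) (-1) (by decide)) (by decide) |
      exact absurd (hN (1) (-1) (1) (1) (by decide)) (by decide) |
      exact absurd (hN (1) (1) (0) (-2) (by decide)) (by decide) |
      exact absurd (hN (1) (1) (0) (2) (by decide)) (by decide) |
      exact absurd (hN (1) (-2) (-1) (-1) (by decide)) (by decide) |
      exact absurd (hN (1) (-2) (-1) (1) (by decide)) (by decide)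

theorem finD (q r q' r' m : ℤ) (hq : q = 1 ∨ q = -1) (hr : r = 1 ∨ r = -1) (hq' : q' = 1 ∨ q' = -1)
    (hr' : r' = 1 ∨ r' = -1) (hm1 : -2 ≤ m) (hm2 : m ≤ 2)
    (hN : ∀ a b c d e : ℤ, e ≠ 0 → 0 < 4 * (a * a + b * b + c * c + d * d + e * e) +
        2 * (a * b + a * c + b * d * q + c * d * r + b * e * q' + c * e * r' + d * e * m) ∧
      4 * (a * a + b * b + c * c + d * d + e * e) +
        2 * (a * b + a * c + b * d * q + c * d * r + b * e * q' + c * e * r' + d * e * m) ≠ 2 ∧
      4 * (a * a + b * b + c * c + d * d + e * e) +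
        2 * (a * b + a * c + b * d * q + c * d * r + b * e * q' + c * e * r' + d * e * m) ≠ 14) :
    False := by
  rcases hq with rfl | rfl <;> rcases hr with rfl | rfl <;> rcases hq' with rfl | rfl <;>
  rcases hr' with rfl | rfl <;> interval_cases m <;>
    first |
      exact absurd (hN (1) (0) (0) (-1) (-1) (by decide)) (by decide) |
      exact absurd (hN (1) (0) (0) (-1) (1) (by decide)) (by decide) |
      exact absurd (hN (1) (-1) (0) (-1) (-1) (by decide)) (by decide) |
      exact absurd (hN (1) (-1) (0) (-1) (1) (by decide)) (by decide) |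
      exact absurd (hN (1) (-1) (0) (1) (-1) (by decide)) (by decide) |
      exact absurd (hN (1) (-1) (0) (1) (1) (by decide)) (by decide)

end Pool.Agent.K9h36.CS
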