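import Pool.Agent.K9h36.CS.Fin
import Pool.Agent.N801.CF.Main1

/-!
# Cubic fourfolds whose algebraic classes are generated by cubic scrolls
-/

set_option autoImplicit false

namespace Pool.Agent.K9h36.CS

open Pool.Agent.Y95.Q Pool.Agent.Y95.Q.H4 Pool.Agent.X328.CF Pool.Agent.N801.CF Module

variable {X : CubicFourfold} {H : H4 X}

/-- primitive Hodge classes of square four -/
def N4 (H : H4 X) (s : Fin 23 → ℤ) : Prop := H.IsHodge s ∧ H.ip s H.h = 0 ∧ H.ip s s = 4

/-- the polar form of the discriminant -/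
def bb (H : H4 X) (u w : Fin 23 → ℤ) : ℤ := 3 * H.ip u w - H.ip H.h u * H.ip H.h w

/-- `h` and the classes in `N4` generate a subgroup of index prime to six -/
def Gen (H : H4 X) : Prop := ∀ v, H.IsHodge v → ∃ m : ℤ, ¬ 2 ∣ m ∧ ¬ 3 ∣ m ∧
  m • v ∈ AddSubgroup.closure (insert H.h {s | N4 H s})

theorem bil {V : Type*} [AddCommGroup V] (F : V → V → ℤ) (h1 : ∀ x y z, F (x + y) z = F x z + F y z)
    (h2 : ∀ x y z, F z (x + y) = F z x + F z y) (n : ℤ) (S : Set V)
    (hg : ∀ x ∈ S, ∀ y ∈ S, n ∣ F x y) :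
    ∀ x ∈ AddSubgroup.closure S, ∀ y ∈ AddSubgroup.closure S, n ∣ F x y := by
  have z1 : ∀ z, F 0 z = 0 := fun z => by
    have := h1 0 0 z
    rw [add_zero] at this
    omega
  have z2 : ∀ z, F z 0 = 0 := fun z => by
    have := h2 0 0 z
    rw [add_zero] at this
    omega
  have n1 : ∀ x z, F (-x) z = -F x z := fun x z => by
    have := h1 (-x) x z
    rw [neg_add_cancel, z1] at this
    omega
  have n2 : ∀ x z, F z (-x) = -F z x := fun x z => by
    have := h2 (-x) x z
    rw [neg_add_cancel, z2] at this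
    omega
  intro x hx
  induction hx using AddSubgroup.closure_induction with
  | mem x hx =>
    intro y hy
    induction hy using AddSubgroup.closure_induction with
    | mem y hy => exact hg x hx y hy
    | zero => rw [z2]; exact dvd_zero _
    | add y z _ _ hy hz => rw [h2]; exact dvd_add hy hz
    | neg y _ hy => rw [n2]; exact (dvd_neg).2 hy
  | zero => intro y _; rw [z1]; exact dvd_zero _
  | add x z _ _ hx hz => intro y hy; rw [h1]; exact dvd_add (hx y hy) (hz y hy)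
  | neg x _ hx => intro y hy; rw [n1]; exact (dvd_neg).2 (hx y hy)

theorem bb_add (x y z : Fin 23 → ℤ) : bb H (x + y) z = bb H x z + bb H y z := by
  simp only [bb, ip_add_left, ip_add_right]
  ring

theorem bb_add' (x y z : Fin 23 → ℤ) : bb H z (x + y) = bb H z x + bb H z y := by
  simp only [bb, ip_add_left, ip_add_right]
  ring

theorem bb_self (x : Fin 23 → ℤ) : bb H x x = H.disc x := by
  unfold bb disc
  ring

theorem bb_h (hH : H.IsCohomology) (y : Fin 23 → ℤ) : bb H H.h y = 0 := by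
  unfold bb
  rw [hH.h_self]
  ring

theorem bb_h' (hH : H.IsCohomology) (y : Fin 23 → ℤ) : bb H y H.h = 0 := by
  unfold bb
  rw [hH.h_self, hH.comm y H.h]
  ring

theorem N4.hs (hH : H.IsCohomology) {s : Fin 23 → ℤ} (hs : N4 H s) : H.ip H.h s = 0 := by
  rw [hH.comm]
  exact hs.2.1

theorem bb_N4 (hH : H.IsCohomology) {s t : Fin 23 → ℤ} (hs : N4 H s) : bb H s t = 3 * H.ip s t := by
  unfold bb
  rw [hs.hs hH]
  ring

theorem N4.neg {s : Fin 23 → ℤ} (hs : N4 H s) : N4 H (-s) := by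
  have e : -s = (-1 : ℤ) • s := by simp
  rw [e]
  refine ⟨H.isHodge_smul _ hs.1, ?_, ?_⟩
  · rw [ip_smul_left, hs.2.1, mul_zero]
  · rw [ip_smul_left, ip_smul_right, hs.2.2]
    norm_num

/-- the condition at two -/
theorem odd_pair (hH : H.IsCohomology) (gen : Gen H) (h2 : ∃ w, H.IsHodge w ∧ ¬ 4 ∣ H.disc w) :
    ∃ s t, N4 H s ∧ N4 H t ∧ ¬ 2 ∣ H.ip s t := by
  by_contra hcon
  push Not at hcon
  obtain ⟨w, hw, hw4⟩ := h2
  have hb := bil (bb H) bb_add bb_add' 2 (insert H.h {s | N4 H s}) (by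
    rintro x (rfl | hx) y hy
    · rw [bb_h hH]
      exact dvd_zero _
    · rcases hy with rfl | hy
      · rw [bb_h' hH]
        exact dvd_zero _
      · rw [bb_N4 hH hx]
        exact (hcon x y hx hy).mul_left 3)
  have hq : ∀ x ∈ AddSubgroup.closure (insert H.h {s | N4 H s}), 4 ∣ H.disc x := by
    intro x hx
    induction hx using AddSubgroup.closure_induction with
    | mem x hx =>
      rcases hx with rfl | hx
      · rw [← bb_self, bb_h hH]
        exact dvd_zero _
      · rw [← bb_self, bb_N4 hH hx, hx.2.2]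
        norm_num
    | zero =>
      rw [← bb_self]
      have : bb H 0 0 = 0 := by
        have := bb_add (H := H) 0 0 0
        rw [add_zero] at this
        omega
      rw [this]
      exact dvd_zero _
    | add x y hx hy h1 h3 =>
      have e : H.disc (x + y) = H.disc x + H.disc y + 2 * bb H x y := by
        rw [← bb_self, ← bb_self, ← bb_self, bb_add, bb_add', bb_add']
        have : bb H y x = bb H x y := by
          unfold bb
          rw [hH.comm y x]
          ring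
        rw [this]
        ring
      rw [e]
      have h4 := hb x hx y hy
      omega
    | neg x _ h1 =>
      have e : -x = (-1 : ℤ) • x := by simp
      rw [e, disc_smul]
      simpa using h1
  obtain ⟨m, hm2, _, hm⟩ := gen w hw
  have h1 := hq _ hm
  rw [disc_smul] at h1
  apply hw4
  have h3 : IsCoprime (4 : ℤ) (m ^ 2) := by
    have h5 : IsCoprime (2 : ℤ) m := (Prime.coprime_iff_not_dvd Int.prime_two).2 hm2
    have h6 := (h5.pow_left (m := 2)).pow_right (n := 2)
    norm_num at h6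
    exact h6
  exact h3.dvd_of_dvd_mul_left h1

/-- the condition at three -/
theorem three_pair (hH : H.IsCohomology) (gen : Gen H)
    (h3 : ∃ w, H.IsHodge w ∧ (¬ 3 ∣ H.disc w ∨ H.disc w % 18 = 6)) {s0 : Fin 23 → ℤ}
    (hs0 : N4 H s0) : ∃ t u, N4 H t ∧ N4 H u ∧ ¬ 3 ∣ H.ip t u - H.ip s0 t * H.ip s0 u := by
  by_contra hcon
  push Not at hcon
  obtain ⟨w, hw, hw3⟩ := h3
  have hb := bil (fun x y => bb H x y - 3 * (H.ip s0 x * H.ip s0 y))
    (fun x y z => by
      show bb H (x + y) z - 3 * (H.ip s0 (x + y) * H.ip s0 z) =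
        bb H x z - 3 * (H.ip s0 x * H.ip s0 z) + (bb H y z - 3 * (H.ip s0 y * H.ip s0 z))
      rw [bb_add, ip_add_right]
      ring)
    (fun x y z => by
      show bb H z (x + y) - 3 * (H.ip s0 z * H.ip s0 (x + y)) =
        bb H z x - 3 * (H.ip s0 z * H.ip s0 x) + (bb H z y - 3 * (H.ip s0 z * H.ip s0 y))
      rw [bb_add', ip_add_right]
      ring) 9 (insert H.h {s | N4 H s}) (by
    rintro x (rfl | hx) y hy
    · show 9 ∣ bb H H.h y - 3 * (H.ip s0 H.h * H.ip s0 y)
      rw [bb_h hH, hs0.2.1]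
      norm_num
    · rcases hy with rfl | hy
      · show 9 ∣ bb H x H.h - 3 * (H.ip s0 x * H.ip s0 H.h)
        rw [bb_h' hH, hs0.2.1]
        norm_num
      · show 9 ∣ bb H x y - 3 * (H.ip s0 x * H.ip s0 y)
        rw [bb_N4 hH hx]
        obtain ⟨c, hc⟩ := hcon x y hx hy
        exact ⟨c, by linear_combination 3 * hc⟩)
  obtain ⟨m, _, hm3, hm⟩ := gen w hw
  obtain ⟨z, hz⟩ := hb _ hm _ hm
  have hz' : m ^ 2 * H.disc w - 3 * (H.ip s0 (m • w)) ^ 2 = 9 * z := by
    rw [← disc_smul, ← bb_self, ← hz]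
    ring
  obtain ⟨M, hM⟩ : ∃ M, m ^ 2 = 3 * M + 1 := by
    rcases (by omega : m % 3 = 1 ∨ m % 3 = 2) with h | h
    · exact ⟨3 * (m / 3) ^ 2 + 2 * (m / 3), by
        have : m = 3 * (m / 3) + 1 := by omega
        conv_lhs => rw [this]
        ring⟩
    · exact ⟨3 * (m / 3) ^ 2 + 4 * (m / 3) + 1, by
        have : m = 3 * (m / 3) + 2 := by omega
        conv_lhs => rw [this]
        ring⟩
  obtain ⟨K, κ, hκ, hK⟩ : ∃ K κ : ℤ, (κ = 0 ∨ κ = 1) ∧ (H.ip s0 (m • w)) ^ 2 = 3 * K + κ := by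
    generalize H.ip s0 (m • w) = k
    rcases (by omega : k % 3 = 0 ∨ k % 3 = 1 ∨ k % 3 = 2) with h | h | h
    · exact ⟨3 * (k / 3) ^ 2, 0, Or.inl rfl, by
        have : k = 3 * (k / 3) := by omega
        conv_lhs => rw [this]
        ring⟩
    · exact ⟨3 * (k / 3) ^ 2 + 2 * (k / 3), 1, Or.inr rfl, by
        have : k = 3 * (k / 3) + 1 := by omega
        conv_lhs => rw [this]
        ring⟩
    · exact ⟨3 * (k / 3) ^ 2 + 4 * (k / 3) + 1, 1, Or.inr rfl, by
        have : k = 3 * (k / 3) + 2 := by omega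
        conv_lhs => rw [this]
        ring⟩
  rw [hM, hK] at hz'
  generalize H.disc w = D at hz' hw3
  rcases hw3 with h | h
  · apply h
    have : (3 * M + 1) * D = 3 * (M * D) + D := by ring
    rw [this] at hz'
    generalize M * D = X' at hz'
    omega
  · obtain ⟨j, hj⟩ : ∃ j, D = 18 * j + 6 := ⟨D / 18, by omega⟩
    have : (3 * M + 1) * D = 54 * (M * j) + 18 * M + 18 * j + 6 := by
      rw [hj]
      ring
    rw [this] at hz'
    generalize M * j = X' at hz'
    rcases hκ with rfl | rfl <;> omega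

/-- integral combinations -/
theorem comb (hH : H.IsCohomology) {x1 x2 x3 x4 x5 : Fin 23 → ℤ} (h1 : N4 H x1) (h2 : N4 H x2)
    (h3 : N4 H x3) (h4 : N4 H x4) (h5 : N4 H x5) (a b c d e : ℤ) :
    H.IsHodge (a • x1 + b • x2 + c • x3 + d • x4 + e • x5) ∧
    H.ip (a • x1 + b • x2 + c • x3 + d • x4 + e • x5) H.h = 0 ∧
    H.ip (a • x1 + b • x2 + c • x3 + d • x4 + e • x5) (a • x1 + b • x2 + c • x3 + d • x4 + e • x5) =
      4 * (a * a + b * b + c * c + d * d + e * e) + 2 * (a * b * H.ip x1 x2 + a * c * H.ip x1 x3 +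
        a * d * H.ip x1 x4 + a * e * H.ip x1 x5 + b * c * H.ip x2 x3 + b * d * H.ip x2 x4 +
        b * e * H.ip x2 x5 + c * d * H.ip x3 x4 + c * e * H.ip x3 x5 + d * e * H.ip x4 x5) := by
  refine ⟨H.isHodge_add (H.isHodge_add (H.isHodge_add (H.isHodge_add (H.isHodge_smul _ h1.1)
    (H.isHodge_smul _ h2.1)) (H.isHodge_smul _ h3.1)) (H.isHodge_smul _ h4.1))
    (H.isHodge_smul _ h5.1), ?_, ?_⟩
  · simp only [ip_add_left, ip_smul_left, h1.2.1, h2.2.1, h3.2.1, h4.2.1, h5.2.1]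
    ring
  · simp only [ip_add_left, ip_add_right, ip_smul_left, ip_smul_right, h1.2.2, h2.2.2, h3.2.2,
      h4.2.2, h5.2.2, hH.comm x2 x1, hH.comm x3 x1, hH.comm x4 x1, hH.comm x5 x1, hH.comm x3 x2,
      hH.comm x4 x2, hH.comm x5 x2, hH.comm x4 x3, hH.comm x5 x3, hH.comm x5 x4]
    ring

theorem avoid (hH : H.IsCohomology) (hno : ∀ x, H.IsHodge x → H.ip x H.h = 0 → H.ip x x ≠ 14)
    {x : Fin 23 → ℤ} (hx : H.IsHodge x) (hxh : H.ip x H.h = 0) :
    0 ≤ H.ip x x ∧ H.ip x x ≠ 2 ∧ H.ip x x ≠ 14 := by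
  refine ⟨?_, hH.disc_six x hx hxh, hno x hx hxh⟩
  by_cases h : x = 0
  · rw [h, ip_zero_left]
  · exact (hH.pos x hx h).le

end Pool.Agent.K9h36.CS
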