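import Pool.Agent.K9h36.CS.Main

/-!
# Cubic fourfolds whose algebraic classes are generated by cubic scrolls: the class of discriminant 42
-/

set_option autoImplicit false

namespace Pool.Agent.K9h36.CS

open Pool.Agent.Y95.Q Pool.Agent.Y95.Q.H4 Pool.Agent.X328.CF Pool.Agent.N801.CF Module

variable {X : CubicFourfold} {H : H4 X}

/-- bounds for products -/
theorem bound (hH : H.IsCohomology) {s t : Fin 23 → ℤ} (hs : N4 H s) (ht : N4 H t) :
    -4 ≤ H.ip s t ∧ H.ip s t ≤ 4 ∧ H.ip s t ≠ 3 ∧ H.ip s t ≠ -3 := by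
  have h1 := comb hH hs ht ht ht ht 1 1 0 0 0
  have h2 := comb hH hs ht ht ht ht 1 (-1) 0 0 0
  have p1 : 0 ≤ 8 + 2 * H.ip s t ∧ 8 + 2 * H.ip s t ≠ 2 := by
    have e : 8 + 2 * H.ip s t = H.ip ((1 : ℤ) • s + (1 : ℤ) • t + (0 : ℤ) • t + (0 : ℤ) • t + (0 : ℤ) • t)
        ((1 : ℤ) • s + (1 : ℤ) • t + (0 : ℤ) • t + (0 : ℤ) • t + (0 : ℤ) • t) := by
      rw [h1.2.2]
      ring
    rw [e]
    refine ⟨?_, hH.disc_six _ h1.1 h1.2.1⟩
    by_cases h : (1 : ℤ) • s + (1 : ℤ) • t + (0 : ℤ) • t + (0 : ℤ) • t + (0 : ℤ) • t = 0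
    · rw [h, ip_zero_left]
    · exact (hH.pos _ h1.1 h).le
  have p2 : 0 ≤ 8 - 2 * H.ip s t ∧ 8 - 2 * H.ip s t ≠ 2 := by
    have e : 8 - 2 * H.ip s t = H.ip ((1 : ℤ) • s + (-1 : ℤ) • t + (0 : ℤ) • t + (0 : ℤ) • t + (0 : ℤ) • t)
        ((1 : ℤ) • s + (-1 : ℤ) • t + (0 : ℤ) • t + (0 : ℤ) • t + (0 : ℤ) • t) := by
      rw [h2.2.2]
      ring
    rw [e]
    refine ⟨?_, hH.disc_six _ h2.1 h2.2.1⟩
    by_cases h : (1 : ℤ) • s + (-1 : ℤ) • t + (0 : ℤ) • t + (0 : ℤ) • t + (0 : ℤ) • t = 0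
    · rw [h, ip_zero_left]
    · exact (hH.pos _ h2.1 h).le
  omega

/-- a generator which is not orthogonal to a given class -/
theorem exists_gen (hH : H.IsCohomology) (gen : Gen H) {y : H.hodge} (hy : y ≠ 0)
    (hyh : H.ip (y : Fin 23 → ℤ) H.h = 0) :
    ∃ w, N4 H w ∧ H.ip w (y : Fin 23 → ℤ) ≠ 0 := by
  by_contra hcon
  push Not at hcon
  have hc : ∀ x ∈ AddSubgroup.closure (insert H.h {s | N4 H s}), H.ip x (y : Fin 23 → ℤ) = 0 := by
    intro x hx
    induction hx using AddSubgroup.closure_induction with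
    | mem x hx =>
      rcases hx with rfl | hx
      · rw [hH.comm]
        exact hyh
      · exact hcon x hx
    | zero => exact ip_zero_left H _
    | add x z _ _ h1 h2 => rw [ip_add_left, h1, h2, add_zero]
    | neg x _ h1 =>
      have e : -x = (-1 : ℤ) • x := by simp
      rw [e, ip_smul_left, h1, mul_zero]
  obtain ⟨m, hm2, _, hm⟩ := gen _ y.2
  have h1 := hc _ hm
  rw [ip_smul_left] at h1
  have hp : 0 < H.ip (y : Fin 23 → ℤ) y := hH.pos _ y.2 fun h => hy (Subtype.ext h)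
  rcases mul_eq_zero.1 h1 with h | h
  · exact hm2 (by rw [h]; exact dvd_zero _)
  · omega

/-- the first type -/
theorem type_one (hH : H.IsCohomology) (gen : Gen H) (hr : 6 ≤ finrank ℤ H.hodge)
    (hno : ∀ x, H.IsHodge x → H.ip x H.h = 0 → H.ip x x ≠ 14) {s t u : Fin 23 → ℤ} (hs : N4 H s)
    (ht : N4 H t) (hu : N4 H u) (hst : H.ip s t = 1) (hsu : H.ip s u = 1) (htu : H.ip t u = 0) :
    False := by
  have step : ∀ (w : Fin 23 → ℤ) (y : H.hodge), N4 H w → H.ip s (y : Fin 23 → ℤ) = 0 →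
      H.ip t (y : Fin 23 → ℤ) = 0 → H.ip u (y : Fin 23 → ℤ) = 0 → H.ip w (y : Fin 23 → ℤ) ≠ 0 →
      H.ip s w = 0 ∧ (H.ip t w = 1 ∨ H.ip t w = -1) ∧ (H.ip u w = 1 ∨ H.ip u w = -1) := by
    intro w y hw h1 h2 h3 h4
    have hN : ∀ a b c d : ℤ, d ≠ 0 → 0 < 4 * (a * a + b * b + c * c + d * d) +
        2 * (a * b + a * c + a * d * H.ip s w + b * d * H.ip t w + c * d * H.ip u w) ∧
      4 * (a * a + b * b + c * c + d * d) +
        2 * (a * b + a * c + a * d * H.ip s w + b * d * H.ip t w + c * d * H.ip u w) ≠ 2 ∧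
      4 * (a * a + b * b + c * c + d * d) +
        2 * (a * b + a * c + a * d * H.ip s w + b * d * H.ip t w + c * d * H.ip u w) ≠ 14 := by
      intro a b c d hd
      have k := comb hH hs ht hu hw hw a b c d 0
      have e : 4 * (a * a + b * b + c * c + d * d) +
          2 * (a * b + a * c + a * d * H.ip s w + b * d * H.ip t w + c * d * H.ip u w) =
          H.ip (a • s + b • t + c • u + d • w + (0 : ℤ) • w)
            (a • s + b • t + c • u + d • w + (0 : ℤ) • w) := by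
        rw [k.2.2, hst, hsu, htu]
        ring
      rw [e]
      obtain ⟨_, k2, k3⟩ := avoid hH hno k.1 k.2.1
      refine ⟨hH.pos _ k.1 fun h0 => ?_, k2, k3⟩
      have : H.ip (a • s + b • t + c • u + d • w + (0 : ℤ) • w) (y : Fin 23 → ℤ) = 0 := by
        rw [h0, ip_zero_left]
      simp only [ip_add_left, ip_smul_left, h1, h2, h3] at this
      have h5 : d * H.ip w (y : Fin 23 → ℤ) = 0 := by linarith
      exact (mul_ne_zero hd h4) h5
    have b1 := hN 1 0 0 1 one_ne_zero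
    have b2 := hN 1 0 0 (-1) (by norm_num)
    have b3 := hN 0 1 0 1 one_ne_zero
    have b4 := hN 0 1 0 (-1) (by norm_num)
    have b5 := hN 0 0 1 1 one_ne_zero
    have b6 := hN 0 0 1 (-1) (by norm_num)
    exact finC (H.ip s w) (H.ip t w) (H.ip u w) (by omega) (by omega) (by omega) (by omega)
      (by omega) (by omega) hN
  obtain ⟨y1, hy1, o1⟩ := exists_orth (H := H) (k := 4) (by omega) ![H.h, s, t, u]
  have y1h : H.ip (y1 : Fin 23 → ℤ) H.h = 0 := o1 0
  have y1s : H.ip s (y1 : Fin 23 → ℤ) = 0 := by rw [hH.comm]; exact o1 1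
  have y1t : H.ip t (y1 : Fin 23 → ℤ) = 0 := by rw [hH.comm]; exact o1 2
  have y1u : H.ip u (y1 : Fin 23 → ℤ) = 0 := by rw [hH.comm]; exact o1 3
  obtain ⟨w, hw, hwy⟩ := exists_gen hH gen hy1 y1h
  obtain ⟨q0, q1, q2⟩ := step w y1 hw y1s y1t y1u hwy
  obtain ⟨y2, hy2, o2⟩ := exists_orth (H := H) (k := 5) (by omega) ![H.h, s, t, u, w]
  have y2h : H.ip (y2 : Fin 23 → ℤ) H.h = 0 := o2 0
  have y2s : H.ip s (y2 : Fin 23 → ℤ) = 0 := by rw [hH.comm]; exact o2 1
  have y2t : H.ip t (y2 : Fin 23 → ℤ) = 0 := by rw [hH.comm]; exact o2 2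
  have y2u : H.ip u (y2 : Fin 23 → ℤ) = 0 := by rw [hH.comm]; exact o2 3
  have y2w : H.ip w (y2 : Fin 23 → ℤ) = 0 := by rw [hH.comm]; exact o2 4
  obtain ⟨w', hw', hwy'⟩ := exists_gen hH gen hy2 y2h
  obtain ⟨r0, r1, r2⟩ := step w' y2 hw' y2s y2t y2u hwy'
  have hN : ∀ a b c d e : ℤ, e ≠ 0 → 0 < 4 * (a * a + b * b + c * c + d * d + e * e) +
        2 * (a * b + a * c + b * d * H.ip t w + c * d * H.ip u w + b * e * H.ip t w' +
          c * e * H.ip u w' + d * e * H.ip w w') ∧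
      4 * (a * a + b * b + c * c + d * d + e * e) +
        2 * (a * b + a * c + b * d * H.ip t w + c * d * H.ip u w + b * e * H.ip t w' +
          c * e * H.ip u w' + d * e * H.ip w w') ≠ 2 ∧
      4 * (a * a + b * b + c * c + d * d + e * e) +
        2 * (a * b + a * c + b * d * H.ip t w + c * d * H.ip u w + b * e * H.ip t w' +
          c * e * H.ip u w' + d * e * H.ip w w') ≠ 14 := by
    intro a b c d e he
    have k := comb hH hs ht hu hw hw' a b c d e
    have e1 : 4 * (a * a + b * b + c * c + d * d + e * e) +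
        2 * (a * b + a * c + b * d * H.ip t w + c * d * H.ip u w + b * e * H.ip t w' +
          c * e * H.ip u w' + d * e * H.ip w w') =
        H.ip (a • s + b • t + c • u + d • w + e • w') (a • s + b • t + c • u + d • w + e • w') := by
      rw [k.2.2, hst, hsu, htu, q0, r0]
      ring
    rw [e1]
    obtain ⟨_, k2, k3⟩ := avoid hH hno k.1 k.2.1
    refine ⟨hH.pos _ k.1 fun h0 => ?_, k2, k3⟩
    have : H.ip (a • s + b • t + c • u + d • w + e • w') (y2 : Fin 23 → ℤ) = 0 := by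
      rw [h0, ip_zero_left]
    simp only [ip_add_left, ip_smul_left, y2s, y2t, y2u, y2w] at this
    have h5 : e * H.ip w' (y2 : Fin 23 → ℤ) = 0 := by linarith
    exact (mul_ne_zero he hwy') h5
  have b1 := hN 0 0 0 1 1 one_ne_zero
  have b2 := hN 0 0 0 1 (-1) (by norm_num)
  exact finD (H.ip t w) (H.ip u w) (H.ip t w') (H.ip u w') (H.ip w w') q1 q2 r1 r2 (by omega)
    (by omega) hN

/-- **a primitive Hodge class of square 14** -/
theorem exists_fourteen (hH : H.IsCohomology) (gen : Gen H) (hr : 6 ≤ finrank ℤ H.hodge)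
    (h2 : ∃ w, H.IsHodge w ∧ ¬ 4 ∣ H.disc w)
    (h3 : ∃ w, H.IsHodge w ∧ (¬ 3 ∣ H.disc w ∨ H.disc w % 18 = 6)) :
    ∃ x, H.IsHodge x ∧ H.ip x H.h = 0 ∧ H.ip x x = 14 := by
  by_contra hcon
  have hno : ∀ x, H.IsHodge x → H.ip x H.h = 0 → H.ip x x ≠ 14 :=
    fun x h1 h2 h3 => hcon ⟨x, h1, h2, h3⟩
  obtain ⟨s, t, hs, ht, hodd⟩ := odd_pair hH gen h2
  -- the sign
  obtain ⟨t, ht, hst⟩ : ∃ t, N4 H t ∧ H.ip s t = 1 := by
    have hb := bound hH hs ht
    rcases (by omega : H.ip s t = 1 ∨ H.ip s t = -1) with h | h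
    · exact ⟨t, ht, h⟩
    · refine ⟨-t, ht.neg, ?_⟩
      have e : -t = (-1 : ℤ) • t := by simp
      rw [e, ip_smul_right, h]
      norm_num
  have hts : H.ip t s = 1 := by rw [hH.comm]; exact hst
  have hneg : ∀ x w : Fin 23 → ℤ, H.ip x (-w) = -H.ip x w := by
    intro x w
    have e : -w = (-1 : ℤ) • w := by simp
    rw [e, ip_smul_right]
    ring
  have hA : ∀ w, N4 H w → (H.ip s w, H.ip t w) ∈
      ([(-4, -1), (-2, -2), (-2, 1), (-1, -4), (-1, -1), (-1, 2), (1, -2), (1, 1), (1, 4), (2, -1),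
        (2, 2), (4, 1)] : List (ℤ × ℤ)) := by
    intro w hw
    have b1 := bound hH hs hw
    have b2 := bound hH ht hw
    have hN : ∀ a b c : ℤ, 0 ≤ 4 * (a * a + b * b + c * c) +
          2 * (a * b + a * c * H.ip s w + b * c * H.ip t w) ∧
        4 * (a * a + b * b + c * c) + 2 * (a * b + a * c * H.ip s w + b * c * H.ip t w) ≠ 2 ∧
        4 * (a * a + b * b + c * c) + 2 * (a * b + a * c * H.ip s w + b * c * H.ip t w) ≠ 14 := by
      intro a b c
      have k := comb hH hs ht hw hw hw a b c 0 0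
      have e : 4 * (a * a + b * b + c * c) + 2 * (a * b + a * c * H.ip s w + b * c * H.ip t w) =
          H.ip (a • s + b • t + c • w + (0 : ℤ) • w + (0 : ℤ) • w)
            (a • s + b • t + c • w + (0 : ℤ) • w + (0 : ℤ) • w) := by
        rw [k.2.2, hst]
        ring
      rw [e]
      exact avoid hH hno k.1 k.2.1
    rcases finA (H.ip s w) (H.ip t w) b1.1 b1.2.1 b2.1 b2.2.1 hN with h | h
    · exfalso
      simp only [List.mem_cons, Prod.mk.injEq, List.not_mem_nil, or_false] at h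
      rcases h with ⟨e1, e2⟩ | ⟨e1, e2⟩ | ⟨e1, e2⟩ | ⟨e1, e2⟩
      · exact type_one hH gen hr hno hs ht hw hst e1 e2
      · exact type_one hH gen hr hno hs ht hw.neg hst (by rw [hneg, e1]; norm_num)
          (by rw [hneg, e2]; norm_num)
      · exact type_one hH gen hr hno ht hs hw hts e2 e1
      · exact type_one hH gen hr hno ht hs hw.neg hts (by rw [hneg, e2]; norm_num)
          (by rw [hneg, e1]; norm_num)
    · exact h
  obtain ⟨u, v, hu, hv, huv⟩ := three_pair hH gen h3 hs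
  have b := bound hH hu hv
  refine finB (H.ip s u) (H.ip t u) (H.ip s v) (H.ip t v) (H.ip u v) (hA u hu) (hA v hv) b.1 b.2.1
    (fun h => huv (Int.dvd_of_emod_eq_zero h)) ?_
  intro a b c d
  have k := comb hH hs ht hu hv hv a b c d 0
  have e : 4 * (a * a + b * b + c * c + d * d) + 2 * (a * b + a * c * H.ip s u + b * c * H.ip t u +
        a * d * H.ip s v + b * d * H.ip t v + c * d * H.ip u v) =
      H.ip (a • s + b • t + c • u + d • v + (0 : ℤ) • v)
        (a • s + b • t + c • u + d • v + (0 : ℤ) • v) := by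
    rw [k.2.2, hst]
    ring
  rw [e]
  exact avoid hH hno k.1 k.2.1

end Pool.Agent.K9h36.CS
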